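import Pool.Agent.N783.CF.WR
import Pool.Agent.N710.PF.Exs
import Pool.Agent.N99.PF.Main
import Pool.Agent.N654.CF.CNT

/-!
# Counting fields with the additional condition `TwoS` (project WR, helper783)

Adapted from the files FAMQ (helper570), MANY (helper93), CN1 (helper300), CNT (helper654) of project CF.
-/

set_option autoImplicit false
set_option linter.all false

open Polynomial NumberField Matrix
open scoped Classical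

namespace Pool.Agent.N783.CF

open Pool.Agent.N352.PJ (dd)
open Pool.Agent.N783.PF
open Pool.Agent.N99.PF (ht_card good_card)

/-- Existence of `S` with split primes. -/
def S_EXS2 : Prop := ∀ (F : Type) [Field F] [NumberField F] (g W : ℕ), 1 ≤ g → ∀ m : ℕ,
  ∃ (S : Finset ℕ) (𝔮 : ℕ → Ideal (𝓞 F)) (h P : ℕ → (𝓞 F)[X]),
    GoodS g W S 𝔮 h P ∧ S.card = m ∧ ∀ q ∈ S, Spl F q

theorem t_EXS2 (hs : S_SPL) : S_EXS2 := by
  intro F _ _ g W hg m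
  obtain ⟨S, hS, hS2⟩ := hs F (W + (2 * g + 1) + (discr F).natAbs) m
  have hdata : ∀ q : ℕ, ∃ (𝔮 : Ideal (𝓞 F)) (h A : (𝓞 F)[X]), q ∈ S →
    (∀ 𝔭 : Ideal (𝓞 F), 𝔭.IsPrime → (q : 𝓞 F) ∉ 𝔭 ^ 2) ∧
    𝔮.IsPrime ∧ (q : 𝓞 F) ∈ 𝔮 ∧
    h.Monic ∧ h.natDegree = 2 * g ∧ Irreducible (rd 𝔮 h) ∧
    A.Monic ∧ A.natDegree = 2 * g + 1 ∧ A.coeff (2 * g) = 0 ∧
    Cg 𝔮 A (X * h) ∧
    ∀ 𝔭 : Ideal (𝓞 F), 𝔭.IsPrime → (q : 𝓞 F) ∈ 𝔭 → 𝔭 ≠ 𝔮 → Irreducible (rd 𝔭 A) := by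
    intro q
    by_cases hq : q ∈ S
    · obtain ⟨h1, h2, h3, h4⟩ := hS2 q hq
      obtain ⟨𝔮, h, A, hh⟩ := Pool.Agent.N710.PF.exists_data F g q hg h1 (by omega) (by omega)
      exact ⟨𝔮, h, A, fun _ => hh⟩
    · exact ⟨⊥, 0, 0, fun h => absurd h hq⟩
  choose 𝔮 h A hh using hdata
  refine ⟨S, 𝔮, h, A, fun q hq => ?_, hS, fun q hq => (hS2 q hq).2.2.2⟩
  obtain ⟨h1, h2, h3, h4⟩ := hS2 q hq
  exact ⟨h1, by omega, by omega, h3, hh q hq⟩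

/-- Many polynomials are irreducible with squarefree discriminant. -/
def S_FAMQS : Prop := ∀ (g W₀ : ℕ) (F : Type) [Field F] [NumberField F], 1 ≤ g →
  ∃ c : ℝ, 0 < c ∧ ∃ B₀ : ℕ, ∀ B ≥ B₀, {f : (𝓞 F)[X] | Ht g B f}.Finite ∧
    c * (B : ℝ) ^ (Module.finrank ℚ F * dd g) ≤
    ({f : (𝓞 F)[X] | Ht g B f ∧ Irreducible (fF f) ∧ SqF g f ∧ Two g f ∧ TwoS g W₀ f}.ncard : ℝ)

theorem t_FAMQS (h0 : Pool.Agent.N783.PF.S_PTS) (h1 : Pool.Agent.N783.PF.S_FAM)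
    (h2 : Pool.Agent.N783.PF.S_BAD) (h3 : S_EXS2)
    (h4 : Pool.Agent.N783.PF.S_SQF) (h5 : Pool.Agent.N783.PF.S_IRR) : S_FAMQS := by
  intro g W₀ F _ _ hg
  obtain ⟨κ, hsq⟩ := h4 g F hg
  obtain ⟨C, K, hbad⟩ := h2 F g κ hg
  obtain ⟨W, f₁, hKW0, hf₁, c, hc, hfam⟩ := h1 F g hg (max (max K κ) W₀)
  have hKW : max K κ ≤ W := (le_max_left _ _).trans hKW0
  have hW₀ : W₀ ≤ W := (le_max_right _ _).trans hKW0
  obtain ⟨-, Cp, hCp, -, hpt⟩ := h0 F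
  set D : ℕ := Module.finrank ℚ F * dd g with hD
  obtain ⟨m, hm1, hm⟩ : ∃ m : ℕ, 1 ≤ m ∧ 2 * (C * (4 * 2 ^ κ : ℝ) ^ D) / c < 2 ^ m := by
    obtain ⟨m, hm⟩ : ∃ m : ℕ, 2 * (C * (4 * 2 ^ κ : ℝ) ^ D) / c < 2 ^ m :=
      pow_unbounded_of_one_lt _ (by norm_num)
    refine ⟨m + 1, by omega, hm.trans_le ?_⟩
    exact pow_le_pow_right₀ (by norm_num) (by omega)
  obtain ⟨S, 𝔮, h, P, hS, hcard, hspl⟩ := h3 F g W hg m
  obtain ⟨B₁₀, hB₁₀⟩ := hfam S 𝔮 h P hS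
  obtain ⟨N₀, hN₀⟩ := hbad W S 𝔮 h P ((le_max_left _ _).trans hKW) hS
  have hq1 : ∀ q ∈ S, 1 ≤ q := fun q hq => (hS q hq).1.pos
  set Pn : ℕ := (∏ q ∈ S, q ^ (2 * g)) ^ Module.finrank ℚ F with hPn
  have hP0 : (0 : ℝ) < Pn := by
    have : 0 < Pn := pow_pos (Finset.prod_pos fun q hq => pow_pos (hq1 q hq) _) _
    exact_mod_cast this
  refine ⟨c / 2 / Pn, by positivity, max (max B₁₀ (4 ^ N₀)) 1, fun B hB => ?_⟩
  have hB1 : 1 ≤ B := (le_max_right _ _).trans hB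
  have hb2 : B₁₀ ≤ B := ((le_max_left _ _).trans (le_max_left _ _)).trans hB
  have hb3 : 4 ^ N₀ ≤ B := ((le_max_right _ _).trans (le_max_left _ _)).trans hB
  obtain ⟨N, hNa, hNb⟩ : ∃ N : ℕ, 2 ^ κ * B ≤ 4 ^ N ∧ 4 ^ N ≤ 4 * (2 ^ κ * B) := by
    refine ⟨Nat.log 4 (2 ^ κ * B) + 1, (Nat.lt_pow_succ_log_self (by norm_num) _).le, ?_⟩
    rw [pow_succ, mul_comm]
    refine Nat.mul_le_mul_left 4 (Nat.pow_log_le_self 4 ?_)
    positivity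
  have hNN : N₀ ≤ N := by
    have e1 : 4 ^ N₀ ≤ 4 ^ N := hb3.trans (le_trans (Nat.le_mul_of_pos_left _ (by positivity)) hNa)
    exact (Nat.pow_le_pow_iff_right (by norm_num)).1 e1
  obtain ⟨hfin, hBd⟩ := hN₀ N hNN
  have hHt := (ht_card hCp hpt g B hB1).1
  refine ⟨hHt, ?_⟩
  set H := {f : (𝓞 F)[X] | Ht g B f ∧ Irreducible (fF f) ∧ SqF g f ∧ Two g f ∧ TwoS g W₀ f} with hH
  set G := {f : (𝓞 F)[X] | Fam g B W f₁ S P f} \ {f : (𝓞 F)[X] | LBad g N κ S 𝔮 P f} with hGdef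
  have hHf : H.Finite := hHt.subset fun f hf => hf.1
  have hG : c / 2 * (B : ℝ) ^ D ≤ Pn * (G.ncard : ℝ) := by
    refine good_card (C := C) (m := m) (κ := κ) hc hP0 B N (hB₁₀ B hb2) hfin ?_ hm ?_
    · rw [hcard] at hBd
      have e2 : Module.finrank ℚ F * (2 * N * dd g) = 2 * N * D := by rw [hD]; ring
      rw [e2] at hBd
      exact_mod_cast hBd
    · exact_mod_cast hNb
  obtain ⟨q, hq⟩ : S.Nonempty := by
    rw [← Finset.card_pos]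
    omega
  obtain ⟨hqp, hqW, -, -, -, h𝔮p, hq𝔮, hhm, hhd, hhirr, -, -, -, hACg, hAirr⟩ := hS q hq
  have hne : 𝔮 q ≠ ⊥ := by
    intro hbot
    rw [hbot, Ideal.mem_bot] at hq𝔮
    have : q = 0 := by exact_mod_cast hq𝔮
    exact hqp.ne_zero this
  have hsub : G ⊆ H := by
    intro f hf
    have hF : Fam g B W f₁ S P f := hf.1
    have hirr : Irreducible (fF f) := h5 F g W f₁ f hf₁ hF.one hF.ht.mon hF.ht.deg
    have hCgf : Cg (𝔮 q) f (X * h q) := by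
      intro j
      have e1 : f.coeff j - (P q).coeff j ∈ 𝔮 q :=
        (Ideal.span_singleton_le_iff_mem (𝔮 q)).2 hq𝔮 (hF.con q hq j)
      have e2 := (𝔮 q).add_mem e1 (hACg j)
      rwa [sub_add_sub_cancel] at e2
    refine ⟨hF.ht, hirr, ?_, ?_, ?_⟩
    · exact hsq B N W f₁ S 𝔮 h P f ((le_max_right _ _).trans hKW) hf₁ hS hF hirr hNa hB1 hf.2
    · exact ⟨𝔮 q, h q, h𝔮p, hne, hhm, hhd, hhirr, hCgf⟩
    · refine ⟨q, 𝔮 q, h q, hqp, lt_of_le_of_lt hW₀ hqW, hspl q hq, h𝔮p, hq𝔮, hhm, hhd, hhirr, hCgf,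
        ?_⟩
      intro 𝔭 h𝔭 hq𝔭 hne𝔭
      have e : rd 𝔭 f = rd 𝔭 (P q) := by
        ext j
        simp only [coeff_map]
        exact Ideal.Quotient.eq.2 ((Ideal.span_singleton_le_iff_mem 𝔭).2 hq𝔭 (hF.con q hq j))
      rw [e]
      exact hAirr 𝔭 h𝔭 hq𝔭 hne𝔭
  have hle : (G.ncard : ℝ) ≤ H.ncard := by
    exact_mod_cast Set.ncard_le_ncard hsub hHf
  calc c / 2 / Pn * (B : ℝ) ^ D = c / 2 * (B : ℝ) ^ D / Pn := by ring
    _ ≤ (Pn * (G.ncard : ℝ)) / Pn := by gcongr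
    _ = G.ncard := by field_simp
    _ ≤ H.ncard := hle

/-- The polynomials which are used. -/
def S_MANYS : Prop := ∀ (g W₀ : ℕ) (F : Type) [Field F] [NumberField F], 1 ≤ g →
  ∃ δ : ℝ, 0 < δ ∧ ∃ c : ℝ, 0 < c ∧ ∃ B₀ : ℕ, ∀ B ≥ B₀,
    {f : (𝓞 F)[X] | Gd g B δ f ∧ TwoS g W₀ f}.Finite ∧
    c * (B : ℝ) ^ (Module.finrank ℚ F * dd g) ≤
      ({f : (𝓞 F)[X] | Gd g B δ f ∧ TwoS g W₀ f}.ncard : ℝ)

theorem t_MANYS : S_FEW → S_FAMQS → S_MANYS := by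
  intro hFEW hFAMQ g W₀ F _ _ hg
  obtain ⟨c, hc, B₀, hB₀⟩ := hFAMQ g W₀ F hg
  obtain ⟨δ, hδ, B₁, hB₁⟩ := hFEW g F hg (c / 2) (by positivity)
  refine ⟨δ, hδ, c / 2, by positivity, max B₀ B₁, fun B hB => ?_⟩
  obtain ⟨hfin, hge⟩ := hB₀ B ((le_max_left _ _).trans hB)
  obtain ⟨hfin2, hle⟩ := hB₁ B ((le_max_right _ _).trans hB)
  have hG : {f : (𝓞 F)[X] | Gd g B δ f ∧ TwoS g W₀ f}.Finite := hfin.subset (fun f hf => hf.1.ht)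
  refine ⟨hG, ?_⟩
  set S1 : Set (𝓞 F)[X] :=
    {f : (𝓞 F)[X] | Ht g B f ∧ Irreducible (fF f) ∧ SqF g f ∧ Two g f ∧ TwoS g W₀ f}
  set S2 : Set (𝓞 F)[X] := {f : (𝓞 F)[X] | Ht g B f ∧ ¬ Big g B δ f}
  have h1 : S1 \ S2 ⊆ {f : (𝓞 F)[X] | Gd g B δ f ∧ TwoS g W₀ f} := by
    rintro f ⟨⟨h1, h2, h3, h4, h6⟩, h5⟩
    refine ⟨⟨h1, h2, h3, h4, ?_⟩, h6⟩
    by_contra hb
    exact h5 ⟨h1, hb⟩
  have h2 : S1.ncard ≤ (S1 \ S2).ncard + S2.ncard := Set.ncard_le_ncard_sdiff_add_ncard S1 S2 hfin2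
  have h3 : (S1 \ S2).ncard ≤ {f : (𝓞 F)[X] | Gd g B δ f ∧ TwoS g W₀ f}.ncard :=
    Set.ncard_le_ncard h1 hG
  have h4 : (S1.ncard : ℝ) ≤ ({f : (𝓞 F)[X] | Gd g B δ f ∧ TwoS g W₀ f}.ncard : ℝ) +
      (S2.ncard : ℝ) := by
    exact_mod_cast h2.trans (Nat.add_le_add_right h3 _)
  have h5 : c * (B : ℝ) ^ (Module.finrank ℚ F * dd g) =
      c / 2 * (B : ℝ) ^ (Module.finrank ℚ F * dd g) +
      c / 2 * (B : ℝ) ^ (Module.finrank ℚ F * dd g) := by ring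
  linarith

/-- The fields which are counted. -/
def FldsS (F : Type) [Field F] [NumberField F] (g W₀ : ℕ) (X : ℝ) :
    Set (IntermediateField F (AlgebraicClosure F)) :=
  {L | L ∈ Fields F (2 * g + 1) X ∧ ∃ (_ : NumberField L) (f : (𝓞 F)[X]) (θ : L), IsGen g f θ ∧
    Irreducible (fF f) ∧ SqF g f ∧ Two g f ∧ NUnit g f ∧ TwoS g W₀ f}

/-- The counting, in terms of the height. -/
def S_CN1S : Prop := ∀ (g W₀ : ℕ) (F : Type) [Field F] [NumberField F], 1 ≤ g →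
  ∃ c : ℝ, 0 < c ∧ ∃ C : ℝ, 1 ≤ C ∧ ∃ B₀ : ℕ, ∀ B ≥ B₀,
    c * (B : ℝ) ^ (Module.finrank ℚ F * dd g) ≤
      ((FldsS F g W₀ (C * (B : ℝ) ^ (Module.finrank ℚ F * (2 * g * (2 * g + 1))))).ncard : ℝ)

/-- The counting. -/
def S_CNTS : Prop := ∀ (g W₀ : ℕ) (F : Type) [Field F] [NumberField F], 1 ≤ g →
  ∃ c : ℝ, 0 < c ∧ ∃ X₀ : ℝ, ∀ X : ℝ, X₀ ≤ X → (Fields F (2 * g + 1) X).Finite ∧
    c * X ^ ((1 : ℝ) / 2 + 1 / ((2 * g + 1 : ℕ) : ℝ)) ≤ ((FldsS F g W₀ X).ncard : ℝ)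

theorem t_CN1S : S_MANYS → S_FIB → S_UNI → S_DB → S_ADJ → S_NUN → S_FINF →
    Pool.Agent.N783.PF.S_PTS → S_CN1S := by
  intro hMANY hFIB hUNI hDB hADJ hNUN hFINF hPTS g W₀ F _ _ hg
  obtain ⟨δ, hδ, c, hc, B₀, hM⟩ := hMANY g W₀ F hg
  obtain ⟨C₁, B₁, hF⟩ := hFIB g F hg δ hδ
  obtain ⟨CD, hCD, hD⟩ := hDB g F hg
  obtain ⟨B₂, hN⟩ := hNUN g F hg δ hδ
  obtain ⟨-, CP, hCP, -, hP⟩ := hPTS F
  have hPf : {a : 𝓞 F | Bd (a : F) C₁}.Finite := by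
    refine ((hP ⊤ 0 (max C₁ 0) top_ne_bot (le_max_right _ _)).1).subset ?_
    intro a ha
    exact ⟨Submodule.mem_top, fun σ => (ha σ).trans (le_max_left _ _)⟩
  obtain ⟨M, hMd⟩ : ∃ M : ℕ, M = max hPf.toFinset.card 1 := ⟨_, rfl⟩
  have hM1 : 1 ≤ M := by rw [hMd]; exact le_max_right _ _
  have hMr : (0 : ℝ) < M := by exact_mod_cast hM1
  refine ⟨c / M, by positivity, max CD 1, le_max_right _ _, max (max B₀ B₁) (max B₂ 1), ?_⟩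
  intro B hB
  have hB0 : B₀ ≤ B := (le_max_left _ _).trans ((le_max_left _ _).trans hB)
  have hB1 : B₁ ≤ B := (le_max_right _ _).trans ((le_max_left _ _).trans hB)
  have hB2 : B₂ ≤ B := (le_max_left _ _).trans ((le_max_right _ _).trans hB)
  have hB3 : 1 ≤ B := (le_max_right _ _).trans ((le_max_right _ _).trans hB)
  have hB3r : (1 : ℝ) ≤ B := by exact_mod_cast hB3
  obtain ⟨hG, hGc⟩ := hM B hB0
  obtain ⟨X, hX⟩ : ∃ X : ℝ, X = max CD 1 * (B : ℝ) ^ (Module.finrank ℚ F * (2 * g * (2 * g + 1))) :=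
    ⟨_, rfl⟩
  have hX1 : 1 ≤ X := by
    rw [hX]
    exact one_le_mul_of_one_le_of_one_le (le_max_right _ _) (one_le_pow₀ hB3r)
  have hXD : CD * (B : ℝ) ^ (Module.finrank ℚ F * (2 * g * (2 * g + 1))) ≤ X := by
    rw [hX]
    exact mul_le_mul_of_nonneg_right (le_max_left _ _) (by positivity)
  rw [← hX]
  have hfin : (FldsS F g W₀ X).Finite :=
    (hFINF F (2 * g + 1) X (by omega) hX1).subset fun L hL => hL.1
  have hch : ∀ f ∈ {f : (𝓞 F)[X] | Gd g B δ f ∧ TwoS g W₀ f},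
      ∃ (L : IntermediateField F (AlgebraicClosure F)), ∃ (_ : NumberField L) (θ : L),
        IsGen g f θ := fun f hf => hADJ g F f hf.1.ht.mon hf.1.ht.deg hf.1.irr
  choose! Lf hLf using hch
  -- the fields are counted
  have hmem : ∀ f ∈ hG.toFinset, Lf f ∈ hfin.toFinset := by
    intro f hf
    have hf'' : Gd g B δ f ∧ TwoS g W₀ f := hG.mem_toFinset.1 hf
    have hf' : Gd g B δ f := hf''.1
    obtain ⟨hn, θ, hgen⟩ := hLf f hf''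
    refine hfin.mem_toFinset.2 ⟨⟨hgen.rank, hn, ?_⟩, hn, f, θ, hgen, hf'.irr, hf'.sqf, hf'.two, ?_,
      hf''.2⟩
    · exact (hD B (Lf f) f θ hB3 hgen hf'.ht).trans hXD
    · exact hN B hB2 f hf'.big hf'.irr hf'.ht.mon hf'.ht.deg
  -- the fibres
  have hfib : ∀ L ∈ hG.toFinset.image Lf, (hG.toFinset.filter fun f => Lf f = L).card ≤ M := by
    intro L hL
    obtain ⟨f₀, hf₀, hfL⟩ := Finset.mem_image.1 hL
    have hf₀'' : Gd g B δ f₀ ∧ TwoS g W₀ f₀ := hG.mem_toFinset.1 hf₀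
    have hf₀' : Gd g B δ f₀ := hf₀''.1
    have h0 : ∃ (_ : NumberField L) (θ : L), IsGen g f₀ θ := hfL ▸ hLf f₀ hf₀''
    obtain ⟨hn, θ, hgen⟩ := h0
    have hsub : (hG.toFinset.filter fun f => Lf f = L) ⊆
        hPf.toFinset.image (fun a => f₀.scaleRoots a) := by
      intro f hf
      obtain ⟨hf1, hf2⟩ := Finset.mem_filter.1 hf
      have hf1'' : Gd g B δ f ∧ TwoS g W₀ f := hG.mem_toFinset.1 hf1
      have hf1' : Gd g B δ f := hf1''.1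
      have h1 : ∃ (_ : NumberField L) (θ : L), IsGen g f θ := hf2 ▸ hLf f hf1''
      obtain ⟨hn', θ', hgen'⟩ := h1
      obtain ⟨a, ha, hθ⟩ := hF B hB1 L f₀ f θ θ' hgen hgen' hf₀'.ht hf₀'.sqf hf₀'.big hf1'.ht
      exact Finset.mem_image.2 ⟨a, hPf.mem_toFinset.2 ha,
        (hUNI g F L f₀ f θ θ' a hgen hgen' hθ).symm⟩
    calc (hG.toFinset.filter fun f => Lf f = L).card ≤
        (hPf.toFinset.image (fun a => f₀.scaleRoots a)).card := Finset.card_le_card hsub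
      _ ≤ hPf.toFinset.card := Finset.card_image_le
      _ ≤ M := by rw [hMd]; exact le_max_left _ _
  have hcard : hG.toFinset.card ≤ M * hfin.toFinset.card := by
    refine (Finset.card_le_mul_card_image _ M hfib).trans ?_
    refine Nat.mul_le_mul_left _ (Finset.card_le_card ?_)
    intro L hL
    obtain ⟨f, hf, rfl⟩ := Finset.mem_image.1 hL
    exact hmem f hf
  rw [Set.ncard_eq_toFinset_card _ hG] at hGc
  rw [Set.ncard_eq_toFinset_card _ hfin]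
  have hcardr : (hG.toFinset.card : ℝ) ≤ M * (hfin.toFinset.card : ℝ) := by exact_mod_cast hcard
  rw [div_mul_eq_mul_div, div_le_iff₀ hMr]
  linarith

theorem t_CNTS : S_CN1S → S_FINF → S_CNTS := by
  intro h1 h2 g W₀ F _ _ hg
  obtain ⟨c, hc, C, hC, B₀, hB⟩ := h1 g W₀ F hg
  have hd : 1 ≤ Module.finrank ℚ F := Module.finrank_pos
  have hfin : ∀ Y : ℝ, 1 ≤ Y → (FldsS F g W₀ Y).Finite := by
    intro Y hY
    refine (h2 F (2 * g + 1) Y (by omega) hY).subset ?_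
    intro L hL
    exact hL.1
  have hmono : ∀ X Y : ℝ, 1 ≤ Y → X ≤ Y →
      ((FldsS F g W₀ X).ncard : ℝ) ≤ ((FldsS F g W₀ Y).ncard : ℝ) := by
    intro X Y hY hXY
    have : (FldsS F g W₀ X).ncard ≤ (FldsS F g W₀ Y).ncard := by
      refine Set.ncard_le_ncard ?_ (hfin Y hY)
      rintro L ⟨⟨k1, hn, k2⟩, k3⟩
      exact ⟨⟨k1, hn, k2.trans hXY⟩, k3⟩
    exact_mod_cast this
  have he : 1 ≤ Module.finrank ℚ F * (2 * g * (2 * g + 1)) :=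
    Nat.mul_pos hd (by positivity)
  obtain ⟨c', hc', X₀, hX₀, hX⟩ := Pool.Agent.N654.CF.real_part
    (Module.finrank ℚ F * Pool.Agent.N352.PJ.dd g)
    (Module.finrank ℚ F * (2 * g * (2 * g + 1))) he c C hc hC B₀
    (fun X => ((FldsS F g W₀ X).ncard : ℝ)) hmono hB
  refine ⟨c', hc', X₀, ?_⟩
  intro X hXX
  refine ⟨h2 F (2 * g + 1) X (by omega) (hX₀.trans hXX), ?_⟩
  have hexp : ((Module.finrank ℚ F * Pool.Agent.N352.PJ.dd g : ℕ) : ℝ) /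
      ((Module.finrank ℚ F * (2 * g * (2 * g + 1)) : ℕ) : ℝ) =
      (1 : ℝ) / 2 + 1 / ((2 * g + 1 : ℕ) : ℝ) := by
    have hd0 : (0 : ℝ) < Module.finrank ℚ F := by exact_mod_cast hd
    have hg0 : (0 : ℝ) < g := by exact_mod_cast hg
    unfold Pool.Agent.N352.PJ.dd
    push_cast
    field_simp
    ring
  have h3 := hX X hXX
  rw [hexp] at h3
  exact h3

end Pool.Agent.N783.CF
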