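import Pool.Agent.N783.CF.Stm
import Pool.Agent.W301.LinI3

/-!
# Finiteness of the set of extensions with bounded discriminant

Project CF (helper783), from the library (W301).
-/

set_option autoImplicit false

open NumberField

namespace Pool.Agent.N783.CF

theorem finf : S_FINF := by
  intro F _ _ n X hn hX
  obtain ⟨C, hC⟩ := Pool.Agent.W301.Lin.card_FS_le_rpow n 1 (2 * n - 1) 0 1 n
      (Module.finrank ℚ F) (by omega) one_pos le_rfl
      (by rw [Nat.choose_one_right]; omega) (by simp; omega) (by simp)
  exact (hC F rfl X hX).1

end Pool.Agent.N783.CF
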