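import Pool.Agent.N783.CF.Stm
import Pool.Agent.N783.CF.Finf
import Pool.Agent.N27.CF.LPL
import Pool.Agent.N783.PF.Final
import Pool.Agent.N327.CF.RES
import Pool.Agent.N195.CF.FEW
import Pool.Agent.N570.CF.FAMQ
import Pool.Agent.N93.CF.MANY
import Pool.Agent.N692.CF.Nun
import Pool.Agent.N914.CF.FIB
import Pool.Agent.N602.CF.UNI
import Pool.Agent.N793.CF.DB
import Pool.Agent.N526.CF.ADJ
import Pool.Agent.N300.CF.CN1
import Pool.Agent.N654.CF.CNT
import Pool.Agent.N130.CF.IR2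
import Pool.Agent.N78.CF.TR2
import Pool.Agent.N227.CF.Det2
import Pool.Agent.N513.CF.PAIR
import Pool.Agent.N492.CF.INR
import Pool.Agent.N693.CF.SWP
import Pool.Agent.N169.CF.FULL

/-!
# Assembly of project CF (helper783)
-/

set_option autoImplicit false

namespace Pool.Agent.N783.CF

theorem lpl : S_LPL := Pool.Agent.N27.CF.t_LPL Pool.Agent.N490.PF.pts

theorem few : S_FEW :=
  Pool.Agent.N195.CF.t_FEW Pool.Agent.N490.PF.pts lpl Pool.Agent.N327.CF.t_RES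

theorem famq : S_FAMQ :=
  Pool.Agent.N570.CF.t_FAMQ Pool.Agent.N490.PF.pts Pool.Agent.N352.PF.famT
    Pool.Agent.N783.PF.bad Pool.Agent.N710.PF.exs Pool.Agent.N783.PF.sqf Pool.Agent.N667.PF.irr

theorem many : S_MANY := Pool.Agent.N93.CF.t_MANY few famq

theorem cn1 : S_CN1 :=
  Pool.Agent.N300.CF.t_CN1 many
    (Pool.Agent.N914.CF.t_FIB Pool.Agent.N490.PF.pts Pool.Agent.N783.PF.int)
    Pool.Agent.N602.CF.t_UNI Pool.Agent.N793.CF.t_DB Pool.Agent.N526.CF.t_ADJ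
    Pool.Agent.N692.CF.t_NUN finf Pool.Agent.N490.PF.pts

theorem cnt : S_CNT := Pool.Agent.N654.CF.t_CNT cn1 finf

theorem full : S_FULL :=
  Pool.Agent.N169.CF.t_FULL (Pool.Agent.N130.CF.t_IR2 Pool.Agent.N783.PF.int)
    Pool.Agent.N78.CF.t_TR2
    (Pool.Agent.N693.CF.t_SWP (Pool.Agent.N513.CF.t_PAIR Pool.Agent.N227.CF.t_DET2)
      Pool.Agent.N492.CF.t_INR)

end Pool.Agent.N783.CF
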