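import Pool.Agent.N783.CF.Stm

/-!
# The ring of integers of the fields which are counted

Project CF (helper783).
-/

set_option autoImplicit false

open Polynomial NumberField
open scoped Classical

namespace Pool.Agent.N783.CF

open Pool.Agent.N783.PF (fF SqF IsGen)

variable {F L : Type} [Field F] [NumberField F] [Field L] [NumberField L] [Algebra F L]

omit [NumberField F] [NumberField L] in
/-- `θ` as an algebraic integer. -/
theorem isIntegral_gen {g : ℕ} {f : (𝓞 F)[X]} {θ : L} (h : IsGen g f θ) : IsIntegral ℤ θ := by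
  have h1 : IsIntegral (𝓞 F) θ := by
    refine ⟨f, h.mon, ?_⟩
    have h2 := h.root
    rw [aeval_def, eval₂_map] at h2
    exact h2
  exact isIntegral_trans θ h1

/-- The ring of integers is generated by one element over `𝓞 F`. -/
theorem mono (h0 : Pool.Agent.N783.PF.S_INT) {g : ℕ} {f : (𝓞 F)[X]} {θ : L} (h : IsGen g f θ)
    (hs : SqF g f) : ∃ t : 𝓞 L, Algebra.adjoin (𝓞 F) {t} = ⊤ := by
  obtain ⟨t, ht⟩ : ∃ t : 𝓞 L, algebraMap (𝓞 L) L t = θ := ⟨⟨θ, isIntegral_gen h⟩, rfl⟩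
  refine ⟨t, ?_⟩
  rw [eq_top_iff]
  rintro x -
  have hx0 : IsIntegral ℤ (algebraMap (𝓞 L) L x) := RingOfIntegers.isIntegral_coe x
  obtain ⟨v, hv⟩ := (h0 g F L f θ h hs (algebraMap (𝓞 L) L x)).1 hx0
  have hx : x = ∑ i, algebraMap (𝓞 F) (𝓞 L) (v i) * t ^ (i : ℕ) := by
    apply FaithfulSMul.algebraMap_injective (𝓞 L) L
    rw [hv, map_sum]
    refine Finset.sum_congr rfl fun i _ => ?_
    rw [map_mul, map_pow, ht]
    rfl
  rw [hx]
  have ht1 : t ∈ Algebra.adjoin (𝓞 F) ({t} : Set (𝓞 L)) :=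
    Algebra.subset_adjoin (Set.mem_singleton t)
  exact Subalgebra.sum_mem _ fun i _ =>
    Subalgebra.mul_mem _ (Subalgebra.algebraMap_mem _ _) (Subalgebra.pow_mem _ ht1 _)

end Pool.Agent.N783.CF
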