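import Pool.Agent.N783.PF.Lat

/-!
# Counting extensions of odd degree of a number field

Project CF (helper783): for every number field `F` and every odd `n = 2 g + 1 ≥ 3` the number of
extensions of degree `n` of `F` with discriminant at most `X` is at least `c X ^ (1 / 2 + 1 / n)`.

The polynomials `f` of the family of project PF which are not bad have a discriminant without square
factors, so `𝓞 L = 𝓞 F [θ]`; for most of them the discriminant is large at all infinite places, and then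
the field `L` determines `f` up to finitely many choices.
-/

set_option autoImplicit false
set_option linter.all false

open Polynomial NumberField Matrix
open scoped Classical

namespace Pool.Agent.N783.CF

open Pool.Agent.N352.PJ (dd)
open Pool.Agent.N783.PF (Bd Ht dsc fF SqF IsGen Fam GoodS GoodF LBad Cg sp rd)

/-! ### Polynomials with small discriminant -/

/-- Few integers of `F` have a conjugate near a given number. -/
def S_LPL : Prop := ∀ (F : Type) [Field F] [NumberField F] (ε : ℝ), 0 < ε →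
  ∃ δ : ℝ, 0 < δ ∧ ∃ R₀ : ℝ, ∀ R : ℝ, R₀ ≤ R → ∀ (σ : F →+* ℂ) (z : ℂ),
    {a : 𝓞 F | Bd (a : F) R ∧ ‖σ (a : F) - z‖ < δ * R}.Finite ∧
    ({a : 𝓞 F | Bd (a : F) R ∧ ‖σ (a : F) - z‖ < δ * R}.ncard : ℝ) ≤
      ε * R ^ Module.finrank ℚ F

/-- The discriminant as a function of the constant coefficient. -/
def S_RES : Prop := ∀ (g : ℕ) (f : ℂ[X]), 1 ≤ g → f.Monic → f.natDegree = 2 * g + 1 →
  ∃ c : Fin (2 * g) → ℂ, ∀ a : ℂ,
    ∏ j, ‖a - c j‖ ≤ ‖(f + C a).resultant (derivative (f + C a)) (2 * g + 1) (2 * g)‖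

/-- The discriminant of `f` is large at all infinite places. -/
def Big {F : Type} [Field F] [NumberField F] (g B : ℕ) (δ : ℝ) (f : (𝓞 F)[X]) : Prop :=
  ∀ σ : F →+* ℂ, δ * (B : ℝ) ^ (2 * g * (2 * g + 1)) ≤ ‖σ ((dsc g f : 𝓞 F) : F)‖

/-- Few polynomials have a small discriminant at some infinite place. -/
def S_FEW : Prop := ∀ (g : ℕ) (F : Type) [Field F] [NumberField F], 1 ≤ g → ∀ ε : ℝ, 0 < ε →
  ∃ δ : ℝ, 0 < δ ∧ ∃ B₀ : ℕ, ∀ B ≥ B₀, {f : (𝓞 F)[X] | Ht g B f ∧ ¬ Big g B δ f}.Finite ∧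
    ({f : (𝓞 F)[X] | Ht g B f ∧ ¬ Big g B δ f}.ncard : ℝ) ≤
      ε * (B : ℝ) ^ (Module.finrank ℚ F * dd g)

/-! ### The family -/

/-- Modulo some prime `𝔮` the polynomial `f` is `X * h` with `h` irreducible of degree `2 g`. -/
def Two {F : Type} [Field F] [NumberField F] (g : ℕ) (f : (𝓞 F)[X]) : Prop :=
  ∃ (𝔮 : Ideal (𝓞 F)) (h : (𝓞 F)[X]), 𝔮.IsPrime ∧ 𝔮 ≠ ⊥ ∧ h.Monic ∧ h.natDegree = 2 * g ∧
    Irreducible (rd 𝔮 h) ∧ Cg 𝔮 f (X * h)

/-- Many polynomials are irreducible with squarefree discriminant. -/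
def S_FAMQ : Prop := ∀ (g : ℕ) (F : Type) [Field F] [NumberField F], 1 ≤ g →
  ∃ c : ℝ, 0 < c ∧ ∃ B₀ : ℕ, ∀ B ≥ B₀, {f : (𝓞 F)[X] | Ht g B f}.Finite ∧
    c * (B : ℝ) ^ (Module.finrank ℚ F * dd g) ≤
    ({f : (𝓞 F)[X] | Ht g B f ∧ Irreducible (fF f) ∧ SqF g f ∧ Two g f}.ncard : ℝ)

/-- The polynomials which are used. -/
structure Gd {F : Type} [Field F] [NumberField F] (g B : ℕ) (δ : ℝ) (f : (𝓞 F)[X]) : Prop where
  ht : Ht g B f
  irr : Irreducible (fF f)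
  sqf : SqF g f
  two : Two g f
  big : Big g B δ f

/-- Many polynomials are used. -/
def S_MANY : Prop := ∀ (g : ℕ) (F : Type) [Field F] [NumberField F], 1 ≤ g →
  ∃ δ : ℝ, 0 < δ ∧ ∃ c : ℝ, 0 < c ∧ ∃ B₀ : ℕ, ∀ B ≥ B₀,
    {f : (𝓞 F)[X] | Gd g B δ f}.Finite ∧
    c * (B : ℝ) ^ (Module.finrank ℚ F * dd g) ≤ ({f : (𝓞 F)[X] | Gd g B δ f}.ncard : ℝ)

/-! ### The field -/

/-- Small integral generators of `L` are multiples of `θ`. -/
def S_FIB : Prop := ∀ (g : ℕ) (F : Type) [Field F] [NumberField F], 1 ≤ g → ∀ δ : ℝ, 0 < δ →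
  ∃ (C : ℝ) (B₀ : ℕ), ∀ B ≥ B₀, ∀ (L : Type) [Field L] [NumberField L] [Algebra F L]
  (f f' : (𝓞 F)[X]) (θ θ' : L), IsGen g f θ → IsGen g f' θ' → Ht g B f → SqF g f →
  Big g B δ f → Ht g B f' → ∃ a : 𝓞 F, Bd (a : F) C ∧ θ' = algebraMap F L (a : F) * θ

/-- Proportional generators. -/
def S_UNI : Prop := ∀ (g : ℕ) (F L : Type) [Field F] [NumberField F] [Field L] [NumberField L]
  [Algebra F L] (f f' : (𝓞 F)[X]) (θ θ' : L) (a : 𝓞 F), IsGen g f θ → IsGen g f' θ' →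
  θ' = algebraMap F L (a : F) * θ → f' = f.scaleRoots a

/-- The discriminant of `L`. -/
def S_DB : Prop := ∀ (g : ℕ) (F : Type) [Field F] [NumberField F], 1 ≤ g →
  ∃ C : ℝ, 0 < C ∧ ∀ (B : ℕ) (L : Type) [Field L] [NumberField L] [Algebra F L]
  (f : (𝓞 F)[X]) (θ : L), 1 ≤ B → IsGen g f θ → Ht g B f →
  ((|NumberField.discr L| : ℤ) : ℝ) ≤ C * (B : ℝ) ^ (Module.finrank ℚ F * (2 * g * (2 * g + 1)))

/-- The roots in the algebraic closure. -/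
def S_ADJ : Prop := ∀ (g : ℕ) (F : Type) [Field F] [NumberField F] (f : (𝓞 F)[X]), f.Monic →
  f.natDegree = 2 * g + 1 → Irreducible (fF f) →
  ∃ (L : IntermediateField F (AlgebraicClosure F)) (_ : NumberField L) (θ : L), IsGen g f θ

/-- The discriminant is divisible by some prime. -/
def NUnit {F : Type} [Field F] [NumberField F] (g : ℕ) (f : (𝓞 F)[X]) : Prop :=
  ∃ 𝔭 : Ideal (𝓞 F), 𝔭.IsPrime ∧ 𝔭 ≠ ⊥ ∧ dsc g f ∈ 𝔭

/-- A large discriminant is not a unit. -/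
def S_NUN : Prop := ∀ (g : ℕ) (F : Type) [Field F] [NumberField F], 1 ≤ g → ∀ δ : ℝ, 0 < δ →
  ∃ B₀ : ℕ, ∀ B ≥ B₀, ∀ f : (𝓞 F)[X], Big g B δ f → Irreducible (fF f) → f.Monic →
    f.natDegree = 2 * g + 1 → NUnit g f

/-! ### Counting the fields -/

/-- The extensions of degree `n` of `F` inside the algebraic closure of `F` whose absolute discriminant
has absolute value at most `X`. -/
def Fields (F : Type) [Field F] [NumberField F] (n : ℕ) (X : ℝ) :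
    Set (IntermediateField F (AlgebraicClosure F)) :=
  {L | Module.finrank F L = n ∧
    ∃ h : NumberField L, ((|@NumberField.discr L _ h| : ℤ) : ℝ) ≤ X}

/-- Finiteness (Hermite). -/
def S_FINF : Prop := ∀ (F : Type) [Field F] [NumberField F] (n : ℕ) (X : ℝ), 2 ≤ n → 1 ≤ X →
  (Fields F n X).Finite

/-- The fields which are counted. -/
def Flds (F : Type) [Field F] [NumberField F] (g : ℕ) (X : ℝ) :
    Set (IntermediateField F (AlgebraicClosure F)) :=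
  {L | L ∈ Fields F (2 * g + 1) X ∧ ∃ (_ : NumberField L) (f : (𝓞 F)[X]) (θ : L), IsGen g f θ ∧
    Irreducible (fF f) ∧ SqF g f ∧ Two g f ∧ NUnit g f}

/-- The counting, in terms of the height. -/
def S_CN1 : Prop := ∀ (g : ℕ) (F : Type) [Field F] [NumberField F], 1 ≤ g →
  ∃ c : ℝ, 0 < c ∧ ∃ C : ℝ, 1 ≤ C ∧ ∃ B₀ : ℕ, ∀ B ≥ B₀,
    c * (B : ℝ) ^ (Module.finrank ℚ F * dd g) ≤
      ((Flds F g (C * (B : ℝ) ^ (Module.finrank ℚ F * (2 * g * (2 * g + 1))))).ncard : ℝ)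

/-- The counting. -/
def S_CNT : Prop := ∀ (g : ℕ) (F : Type) [Field F] [NumberField F], 1 ≤ g →
  ∃ c : ℝ, 0 < c ∧ ∃ X₀ : ℝ, ∀ X : ℝ, X₀ ≤ X → (Fields F (2 * g + 1) X).Finite ∧
    c * X ^ ((1 : ℝ) / 2 + 1 / ((2 * g + 1 : ℕ) : ℝ)) ≤ ((Flds F g X).ncard : ℝ)

/-! ### The Galois group -/

/-- The Galois group of `F` acts on the embeddings of `L` as the full symmetric group. -/
def Sym (F : Type) [Field F] (L : IntermediateField F (AlgebraicClosure F)) : Prop :=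
  ∀ τ : Equiv.Perm (L →ₐ[F] AlgebraicClosure F),
    ∃ σ : AlgebraicClosure F ≃ₐ[F] AlgebraicClosure F,
      ∀ φ : L →ₐ[F] AlgebraicClosure F, τ φ = σ.toAlgHom.comp φ

/-- `f / (x - θ)` is irreducible over `L`. -/
def S_IR2 : Prop := ∀ (g : ℕ) (F L : Type) [Field F] [NumberField F] [Field L] [NumberField L]
  [Algebra F L] (f : (𝓞 F)[X]) (θ : L), 1 ≤ g → IsGen g f θ → SqF g f → Two g f →
  ∃ k : L[X], (fF f).map (algebraMap F L) = (X - C θ) * k ∧ Irreducible k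

/-- The action on the embeddings is doubly transitive. -/
def S_TR2 : Prop := ∀ (g : ℕ) (F : Type) [Field F] [NumberField F]
  (L : IntermediateField F (AlgebraicClosure F)) [NumberField L] (f : (𝓞 F)[X]) (θ : L) (k : L[X]),
  IsGen g f θ → Irreducible (fF f) → (fF f).map (algebraMap F L) = (X - C θ) * k →
  Irreducible k → ∀ φ ψ φ' ψ' : L →ₐ[F] AlgebraicClosure F, φ ≠ ψ → φ' ≠ ψ' →
  ∃ σ : AlgebraicClosure F ≃ₐ[F] AlgebraicClosure F, σ.toAlgHom.comp φ = φ' ∧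
    σ.toAlgHom.comp ψ = ψ'

/-- A matrix of corank at least two modulo `𝔭`. -/
def S_DET2 : Prop := ∀ (F : Type) [Field F] [NumberField F] (𝔭 : Ideal (𝓞 F)) (ι : Type)
  [Fintype ι] [DecidableEq ι] (M : Matrix ι ι (𝓞 F)) (x y : ι → 𝓞 F), 𝔭.IsPrime → 𝔭 ≠ ⊥ →
  (∀ i, (M *ᵥ x) i ∈ 𝔭) → (∀ i, (M *ᵥ y) i ∈ 𝔭) →
  (∃ a b, x a * y b - x b * y a ∉ 𝔭) → M.det ∈ 𝔭 ^ 2

/-- If the discriminant is not divisible by `𝔭 ^ 2`, then modulo `𝔭` there is at most one pair of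
equal roots. -/
def S_PAIR : Prop := ∀ (F Ω : Type) [Field F] [NumberField F] [Field Ω] (g : ℕ) (𝔭 : Ideal (𝓞 F))
  (f : (𝓞 F)[X]) (ρ : 𝓞 F →+* Ω) (r : Fin (2 * g + 1) → Ω), 1 ≤ g → 𝔭.IsPrime → 𝔭 ≠ ⊥ →
  RingHom.ker ρ = 𝔭 → f.Monic → f.natDegree = 2 * g + 1 → dsc g f ∉ 𝔭 ^ 2 →
  f.map ρ = ∏ i, (X - C (r i)) →
  ∀ i j k l : Fin (2 * g + 1), i ≠ j → r i = r j → k ≠ l → r k = r l →
    ({i, j} : Finset (Fin (2 * g + 1))) = {k, l}

/-- A nontrivial element of the inertia group. -/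
def S_INR : Prop := ∀ (F N : Type) [Field F] [NumberField F] [Field N] [NumberField N]
  [Algebra F N] [IsGalois F N] (𝔭 : Ideal (𝓞 F)) (D : 𝓞 F) (x : 𝓞 N) (𝔓 : Ideal (𝓞 N)),
  𝔭.IsPrime → 𝔭 ≠ ⊥ → D ∈ 𝔭 → D ∉ 𝔭 ^ 2 →
  (x ^ 2 = algebraMap (𝓞 F) (𝓞 N) D ∨ x ^ 2 = - algebraMap (𝓞 F) (𝓞 N) D) → 𝔓.IsPrime →
  𝔓.comap (algebraMap (𝓞 F) (𝓞 N)) = 𝔭 →
  ∃ σ : N ≃ₐ[F] N, σ ≠ 1 ∧ ∀ y : 𝓞 N, ∃ z ∈ 𝔓, ((z : 𝓞 N) : N) = σ (y : N) - (y : N)

/-- A transposition in the Galois group. -/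
def S_SWP : Prop := ∀ (g : ℕ) (F : Type) [Field F] [NumberField F]
  (L : IntermediateField F (AlgebraicClosure F)) [NumberField L] (f : (𝓞 F)[X]) (θ : L), 1 ≤ g →
  IsGen g f θ → Irreducible (fF f) → SqF g f → NUnit g f →
  ∃ (σ : AlgebraicClosure F ≃ₐ[F] AlgebraicClosure F) (φ ψ : L →ₐ[F] AlgebraicClosure F),
    φ ≠ ψ ∧ σ.toAlgHom.comp φ = ψ ∧ σ.toAlgHom.comp ψ = φ ∧
    ∀ χ : L →ₐ[F] AlgebraicClosure F, χ ≠ φ → χ ≠ ψ → σ.toAlgHom.comp χ = χ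

/-- The Galois group is the full symmetric group. -/
def S_FULL : Prop := ∀ (g : ℕ) (F : Type) [Field F] [NumberField F]
  (L : IntermediateField F (AlgebraicClosure F)) [NumberField L] (f : (𝓞 F)[X]) (θ : L), 1 ≤ g →
  IsGen g f θ → Irreducible (fF f) → SqF g f → Two g f → NUnit g f → Sym F L

end Pool.Agent.N783.CF
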