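import Pool.Agent.N783.CF.Stm

/-!
# Counting extensions of a number field: relative extensions of an intermediate field

Project CF (helper783).
-/

set_option autoImplicit false

open NumberField

namespace Pool.Agent.N783.CF

/-- Extensions of degree `m` of the intermediate field `M` are extensions of `K`. -/
def S_TOW : Prop := ∀ (K : Type) [Field K] [NumberField K]
  (M : IntermediateField K (AlgebraicClosure K)) [NumberField M] (m : ℕ) (X : ℝ), 2 ≤ m → 1 ≤ X →
  (Fields M m X).ncard ≤ (Fields K (Module.finrank K M * m) X).ncard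

/-- Many quadratic extensions. -/
def S_TWO2 : Prop := ∀ (K : Type) [Field K] [NumberField K],
  ∃ c : ℝ, 0 < c ∧ ∃ X₀ : ℝ, ∀ X : ℝ, X₀ ≤ X → c * X ≤ ((Fields K 2 X).ncard : ℝ)

end Pool.Agent.N783.CF
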