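import Pool.Agent.N783.CF.Final
import Pool.Agent.N783.CF.Stm2
import Pool.Agent.N531.CF.TOW
import Pool.Agent.N130.CF.TWO2

/-!
# Project CF (helper783): the least prime factor
-/

set_option autoImplicit false
set_option linter.all false

open NumberField

namespace Pool.Agent.N783.CF

/-- Prime degree. -/
theorem prim (h2 : S_TWO2) (K : Type) [Field K] [NumberField K] (p : ℕ) (hp : p.Prime) :
    ∃ c : ℝ, 0 < c ∧ ∃ X₀ : ℝ, ∀ X : ℝ, X₀ ≤ X →
      c * X ^ ((1 : ℝ) / 2 + 1 / (p : ℝ)) ≤ ((Fields K p X).ncard : ℝ) := by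
  rcases hp.eq_two_or_odd' with rfl | hodd
  · obtain ⟨c, hc, X₀, h⟩ := h2 K
    refine ⟨c, hc, X₀, fun X hX => ?_⟩
    have := h X hX
    have e : ((1 : ℝ) / 2 + 1 / ((2 : ℕ) : ℝ)) = 1 := by norm_num
    rw [e, Real.rpow_one]
    exact this
  · have h3 : 3 ≤ p := by
      have := hp.two_le
      obtain ⟨k, rfl⟩ := hodd
      omega
    obtain ⟨g, rfl⟩ := hodd
    obtain ⟨c, hc, X₀, h⟩ := cnt g K (by omega)
    refine ⟨c, hc, max X₀ 1, fun X hX => ?_⟩
    obtain ⟨hfin, hle⟩ := h X ((le_max_left _ _).trans hX)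
    refine hle.trans ?_
    exact_mod_cast Set.ncard_le_ncard (fun L (hL : L ∈ Flds K g X) => hL.1) hfin

/-- Existence of extensions of any degree. -/
theorem exi (h2 : S_TWO2) (K : Type) [Field K] [NumberField K] (m : ℕ) : 1 ≤ m →
    ∃ M : IntermediateField K (AlgebraicClosure K), ∃ _ : NumberField M,
      Module.finrank K M = m := by
  induction m using Nat.strong_induction_on with
  | _ m ih =>
    intro hm
    rcases Nat.eq_or_lt_of_le hm with rfl | hm1
    · have : FiniteDimensional K (⊥ : IntermediateField K (AlgebraicClosure K)) :=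
        FiniteDimensional.of_finrank_pos (by rw [IntermediateField.finrank_bot]; exact one_pos)
      exact ⟨⊥, NumberField.of_module_finite K _, IntermediateField.finrank_bot⟩
    · have hp : m.minFac.Prime := Nat.minFac_prime (by omega)
      obtain ⟨k, hk⟩ := Nat.minFac_dvd m
      have hk1 : 1 ≤ k := by
        rcases Nat.eq_zero_or_pos k with rfl | h
        · omega
        · exact h
      have hkm : k < m := by
        have := hp.two_le
        nlinarith
      obtain ⟨M, hM, hd⟩ := ih k hkm hk1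
      obtain ⟨c, hc, X₀, h⟩ := prim h2 M m.minFac hp
      have h1 := h (max X₀ 1) (le_max_left _ _)
      have hpos : (0 : ℝ) < c * (max X₀ 1) ^ ((1 : ℝ) / 2 + 1 / (m.minFac : ℝ)) := by
        have : (0 : ℝ) < max X₀ 1 := lt_of_lt_of_le one_pos (le_max_right _ _)
        positivity
      have h3 : 0 < (Fields M m.minFac (max X₀ 1)).ncard := by
        exact_mod_cast lt_of_lt_of_le hpos h1
      have h4 := Pool.Agent.N531.CF.t_TOW finf K M m.minFac (max X₀ 1) hp.two_le
        (le_max_right _ _)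
      have h5 : (Fields K (Module.finrank K M * m.minFac) (max X₀ 1)).ncard ≠ 0 := by omega
      obtain ⟨L, hL1, hL2, -⟩ := Set.nonempty_of_ncard_ne_zero h5
      refine ⟨L, hL2, ?_⟩
      rw [hL1, hd, mul_comm]
      exact hk.symm

/-- The lower bound with the least prime factor. -/
theorem low (h2 : S_TWO2) (K : Type) [Field K] [NumberField K] (n : ℕ) (hn : 2 ≤ n) :
    ∃ c : ℝ, 0 < c ∧ ∃ X₀ : ℝ, ∀ X : ℝ, X₀ ≤ X → (Fields K n X).Finite ∧
      c * X ^ ((1 : ℝ) / 2 + 1 / (n.minFac : ℝ)) ≤ ((Fields K n X).ncard : ℝ) := by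
  have hp : n.minFac.Prime := Nat.minFac_prime (by omega)
  obtain ⟨k, hk⟩ := Nat.minFac_dvd n
  have hk1 : 1 ≤ k := by
    rcases Nat.eq_zero_or_pos k with rfl | h
    · omega
    · exact h
  obtain ⟨M, hM, hd⟩ := exi h2 K k hk1
  obtain ⟨c, hc, X₀, h⟩ := prim h2 M n.minFac hp
  refine ⟨c, hc, max X₀ 1, fun X hX => ?_⟩
  have hX0 := h X ((le_max_left _ _).trans hX)
  have hX1 : 1 ≤ X := (le_max_right _ _).trans hX
  refine ⟨finf K n X hn hX1, hX0.trans ?_⟩
  have h4 := Pool.Agent.N531.CF.t_TOW finf K M n.minFac X hp.two_le hX1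
  rw [hd, mul_comm, ← hk] at h4
  exact_mod_cast h4

/-- The lower bound with the least prime factor, final form. -/
theorem lowF (K : Type) [Field K] [NumberField K] (n : ℕ) (hn : 2 ≤ n) :
    ∃ c : ℝ, 0 < c ∧ ∃ X₀ : ℝ, ∀ X : ℝ, X₀ ≤ X → (Fields K n X).Finite ∧
      c * X ^ ((1 : ℝ) / 2 + 1 / (n.minFac : ℝ)) ≤ ((Fields K n X).ncard : ℝ) :=
  low Pool.Agent.N130.CF.t_TWO2 K n hn

end Pool.Agent.N783.CF
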