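import Pool.Agent.N783.CF.Stm

/-!
# Wreath products (project WR of helper783)

`K` a number field, `Ω` its algebraic closure, `M` an extension of `K` in `Ω`, `f` a polynomial of degree
`2 g + 1` over `𝓞 M`. The Galois group of `f` over `K` is the full wreath product of the symmetric group
with the Galois group of `M` over `K`.
-/

set_option autoImplicit false
set_option linter.all false

open Polynomial NumberField
open scoped Classical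

namespace Pool.Agent.N783.CF

open Pool.Agent.N783.PF (Bd Ht dsc fF SqF IsGen Fam GoodS GoodF LBad Cg sp rd)

/-! ### Primes -/

/-- All primes of `F` over `q` are of degree one. -/
def Spl (F : Type) [Field F] [NumberField F] (q : ℕ) : Prop :=
  ∀ 𝔭 : Ideal (𝓞 F), 𝔭.IsPrime → (q : 𝓞 F) ∈ 𝔭 → ∀ a : 𝓞 F, a ^ q - a ∈ 𝔭

/-- Infinitely many primes `q ≡ 1 mod 8` of this kind. -/
def S_SPL : Prop := ∀ (F : Type) [Field F] [NumberField F] (W m : ℕ),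
  ∃ S : Finset ℕ, S.card = m ∧ ∀ q ∈ S, q.Prime ∧ W < q ∧ q % 8 = 1 ∧ Spl F q

/-- The conditions modulo the primes over one such `q`. -/
def TwoS {F : Type} [Field F] [NumberField F] (g W : ℕ) (f : (𝓞 F)[X]) : Prop :=
  ∃ (q : ℕ) (𝔮 : Ideal (𝓞 F)) (h : (𝓞 F)[X]), q.Prime ∧ W < q ∧ Spl F q ∧
    𝔮.IsPrime ∧ (q : 𝓞 F) ∈ 𝔮 ∧ h.Monic ∧ h.natDegree = 2 * g ∧ Irreducible (rd 𝔮 h) ∧
    Cg 𝔮 f (X * h) ∧
    ∀ 𝔭 : Ideal (𝓞 F), 𝔭.IsPrime → (q : 𝓞 F) ∈ 𝔭 → 𝔭 ≠ 𝔮 → Irreducible (rd 𝔭 f)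

/-- Roots of an irreducible polynomial over a finite field with `q` elements. -/
def S_FF : Prop := ∀ (κ k : Type) [Field κ] [Field k] [Algebra κ k] [Finite κ] (p : κ[X]) (z : k),
  Irreducible p → aeval z p = 0 → z ^ Nat.card κ ^ p.natDegree = z ∧
    ∀ y : k, aeval y p = 0 → ∃ i : ℕ, y = z ^ Nat.card κ ^ i

/-- A Frobenius element for finitely many integers. -/
def S_FR1 : Prop := ∀ (K : Type) [Field K] [NumberField K]
  (T : Finset (integralClosure ℤ (AlgebraicClosure K)))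
  (𝔔 : Ideal (integralClosure ℤ (AlgebraicClosure K))) (q : ℕ), q.Prime → 𝔔.IsPrime →
  (q : integralClosure ℤ (AlgebraicClosure K)) ∈ 𝔔 →
  (∀ a : 𝓞 K, ∃ y ∈ 𝔔, (y : AlgebraicClosure K) = algebraMap K (AlgebraicClosure K) ((a ^ q - a : 𝓞 K) : K)) →
  ∃ s : AlgebraicClosure K ≃ₐ[K] AlgebraicClosure K, ∀ t ∈ T, ∃ y ∈ 𝔔,
    (y : AlgebraicClosure K) = s (t : AlgebraicClosure K) - (t : AlgebraicClosure K) ^ q

/-! ### The roots -/

/-- The set of the roots of `φ f`. -/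
def Zr {K : Type} [Field K] (M : IntermediateField K (AlgebraicClosure K))
    (φ : M →ₐ[K] AlgebraicClosure K) (f : (𝓞 M)[X]) : Set (AlgebraicClosure K) :=
  {z | (f.map ((φ : M →+* AlgebraicClosure K).comp (algebraMap (𝓞 M) M))).eval z = 0}

/-- An integer of `M` whose conjugates are incongruent modulo all large primes. -/
def S_ALP : Prop := ∀ (K : Type) [Field K] [NumberField K]
  (M : IntermediateField K (AlgebraicClosure K)) [NumberField M], ∃ (α : 𝓞 M) (W : ℕ),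
  ∀ (q : ℕ) (𝔔 : Ideal (integralClosure ℤ (AlgebraicClosure K))), q.Prime → W < q → 𝔔.IsPrime →
  (q : integralClosure ℤ (AlgebraicClosure K)) ∈ 𝔔 → ∀ φ φ' : M →ₐ[K] AlgebraicClosure K, φ ≠ φ' →
  ∀ y : integralClosure ℤ (AlgebraicClosure K), (y : AlgebraicClosure K) = φ (α : M) - φ' (α : M) →
  y ∉ 𝔔

/-- The roots of `φ f` and the power `s ^ (2 g + 1)` of a Frobenius element. -/
def S_FBR : Prop := ∀ (g : ℕ) (K : Type) [Field K] [NumberField K]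
  (M : IntermediateField K (AlgebraicClosure K)) [NumberField M] (f h : (𝓞 M)[X]) (q : ℕ)
  (𝔔 : Ideal (integralClosure ℤ (AlgebraicClosure K))) (𝔭 : Ideal (𝓞 M))
  (φ : M →ₐ[K] AlgebraicClosure K) (s : AlgebraicClosure K ≃ₐ[K] AlgebraicClosure K),
  1 ≤ g → q.Prime → Spl M q → 𝔔.IsPrime → (q : integralClosure ℤ (AlgebraicClosure K)) ∈ 𝔔 →
  𝔭.IsPrime → (q : 𝓞 M) ∈ 𝔭 →
  (∀ a : 𝓞 M, a ∈ 𝔭 ↔ ∃ y ∈ 𝔔, (y : AlgebraicClosure K) = φ (a : M)) →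
  f.Monic → f.natDegree = 2 * g + 1 → s.toAlgHom.comp φ = φ →
  (∀ z ∈ Zr M φ f, ∃ y ∈ 𝔔, (y : AlgebraicClosure K) = s z - z ^ q) →
  (Irreducible (rd 𝔭 f) → (Zr M φ f).ncard = 2 * g + 1 ∧
    ∀ z ∈ Zr M φ f, (s ^ (2 * g + 1)) z = z) ∧
  (h.Monic → h.natDegree = 2 * g → Irreducible (rd 𝔭 h) → Cg 𝔭 f (X * h) →
    (Zr M φ f).ncard = 2 * g + 1 ∧ ∃ z₀ ∈ Zr M φ f, (s ^ (2 * g + 1)) z₀ = z₀ ∧
      ∀ z ∈ Zr M φ f, ∀ z' ∈ Zr M φ f, z ≠ z₀ → z' ≠ z₀ →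
        ∃ k : ℕ, z' = ((s ^ (2 * g + 1)) ^ k) z)

/-- A cycle of length `2 g` on the roots of `φ₀ f`. -/
def S_FRB : Prop := ∀ (g : ℕ) (K : Type) [Field K] [NumberField K]
  (M : IntermediateField K (AlgebraicClosure K)) [NumberField M], 1 ≤ g → ∃ W : ℕ,
  ∀ f : (𝓞 M)[X], f.Monic → f.natDegree = 2 * g + 1 → TwoS g W f →
  (∀ φ : M →ₐ[K] AlgebraicClosure K, (Zr M φ f).ncard = 2 * g + 1) ∧
  ∀ φ₀ : M →ₐ[K] AlgebraicClosure K, ∃ s : AlgebraicClosure K ≃ₐ[K] AlgebraicClosure K,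
    (∀ φ : M →ₐ[K] AlgebraicClosure K, s.toAlgHom.comp φ = φ) ∧
    (∀ φ : M →ₐ[K] AlgebraicClosure K, φ ≠ φ₀ → ∀ z ∈ Zr M φ f, s z = z) ∧
    ∃ z₀ ∈ Zr M φ₀ f, s z₀ = z₀ ∧ ∀ z ∈ Zr M φ₀ f, ∀ z' ∈ Zr M φ₀ f, z ≠ z₀ → z' ≠ z₀ →
      ∃ k : ℕ, z' = (s ^ k) z

/-- Every permutation of the roots of `φ f`. -/
def S_AA : Prop := ∀ (g : ℕ) (K : Type) [Field K] [NumberField K]
  (M : IntermediateField K (AlgebraicClosure K)) [NumberField M]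
  (L : IntermediateField M (AlgebraicClosure M)) [NumberField L] (f : (𝓞 M)[X]) (θ : L),
  IsGen g f θ → Irreducible (fF f) → Sym M L →
  ∀ (φ : M →ₐ[K] AlgebraicClosure K) (u : AlgebraicClosure K → AlgebraicClosure K),
  Set.BijOn u (Zr M φ f) (Zr M φ f) →
  ∃ σ : AlgebraicClosure K ≃ₐ[K] AlgebraicClosure K, σ.toAlgHom.comp φ = φ ∧
    ∀ z ∈ Zr M φ f, σ z = u z

/-! ### Groups -/

/-- A normal subgroup of the symmetric group of degree `2 g + 1` which contains a cycle of length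
`2 g`. -/
def S_GRP : Prop := ∀ (g : ℕ) (Z : Type) [Fintype Z] [DecidableEq Z] (H : Subgroup (Equiv.Perm Z)),
  1 ≤ g → Fintype.card Z = 2 * g + 1 → H.Normal →
  (∃ s ∈ H, ∃ z₀ : Z, s z₀ = z₀ ∧ ∀ z z' : Z, z ≠ z₀ → z' ≠ z₀ → ∃ k : ℕ, z' = (s ^ k) z) → H = ⊤

/-- The Galois group contains every map of the roots which is compatible with an element `ρ`. -/
def Wr {K : Type} [Field K] (M : IntermediateField K (AlgebraicClosure K)) (f : (𝓞 M)[X]) : Prop :=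
  ∀ (ρ : AlgebraicClosure K ≃ₐ[K] AlgebraicClosure K)
    (u : (M →ₐ[K] AlgebraicClosure K) → AlgebraicClosure K → AlgebraicClosure K),
    (∀ φ : M →ₐ[K] AlgebraicClosure K, Set.BijOn (u φ) (Zr M φ f) (Zr M (ρ.toAlgHom.comp φ) f)) →
    ∃ σ : AlgebraicClosure K ≃ₐ[K] AlgebraicClosure K, ∀ φ : M →ₐ[K] AlgebraicClosure K,
      σ.toAlgHom.comp φ = ρ.toAlgHom.comp φ ∧ ∀ z ∈ Zr M φ f, σ z = u φ z

/-- Combination. -/
def S_WW : Prop := ∀ (g : ℕ) (K : Type) [Field K] [NumberField K]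
  (M : IntermediateField K (AlgebraicClosure K)) [NumberField M] (f : (𝓞 M)[X]), 1 ≤ g →
  (∀ φ : M →ₐ[K] AlgebraicClosure K, (Zr M φ f).ncard = 2 * g + 1) →
  (∀ φ₀ : M →ₐ[K] AlgebraicClosure K, ∃ s : AlgebraicClosure K ≃ₐ[K] AlgebraicClosure K,
    (∀ φ : M →ₐ[K] AlgebraicClosure K, s.toAlgHom.comp φ = φ) ∧
    (∀ φ : M →ₐ[K] AlgebraicClosure K, φ ≠ φ₀ → ∀ z ∈ Zr M φ f, s z = z) ∧
    ∃ z₀ ∈ Zr M φ₀ f, s z₀ = z₀ ∧ ∀ z ∈ Zr M φ₀ f, ∀ z' ∈ Zr M φ₀ f, z ≠ z₀ → z' ≠ z₀ →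
      ∃ k : ℕ, z' = (s ^ k) z) →
  (∀ (φ : M →ₐ[K] AlgebraicClosure K) (u : AlgebraicClosure K → AlgebraicClosure K),
    Set.BijOn u (Zr M φ f) (Zr M φ f) →
    ∃ σ : AlgebraicClosure K ≃ₐ[K] AlgebraicClosure K, σ.toAlgHom.comp φ = φ ∧
      ∀ z ∈ Zr M φ f, σ z = u z) →
  Wr M f

/-! ### The field -/

/-- The Galois group of `L` over `K` is the full wreath product of the symmetric group of the degree
`[L : M]` with the Galois group of `M` over `K`. -/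
def WFull {K : Type} [Field K] (M L : IntermediateField K (AlgebraicClosure K)) : Prop :=
  ∃ hML : M ≤ L, ∀ τ : Equiv.Perm (L →ₐ[K] AlgebraicClosure K),
    (∃ ρ : AlgebraicClosure K ≃ₐ[K] AlgebraicClosure K, ∀ ψ : L →ₐ[K] AlgebraicClosure K,
      (τ ψ).comp (IntermediateField.inclusion hML) =
        ρ.toAlgHom.comp (ψ.comp (IntermediateField.inclusion hML))) →
    ∃ σ : AlgebraicClosure K ≃ₐ[K] AlgebraicClosure K, ∀ ψ : L →ₐ[K] AlgebraicClosure K,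
      τ ψ = σ.toAlgHom.comp ψ

/-- From the roots to the field. -/
def S_WF : Prop := ∀ (g : ℕ) (K : Type) [Field K] [NumberField K]
  (M L : IntermediateField K (AlgebraicClosure K)) [NumberField M] [NumberField L]
  (hML : M ≤ L) (f : (𝓞 M)[X]) (θ : L), f.Monic → f.natDegree = 2 * g + 1 →
  Irreducible (fF f) →
  θ.1 ∈ Zr M M.val f →
  (∀ x : L, ∃ c : Fin (2 * g + 1) → M, x.1 = ∑ i, (c i).1 * θ.1 ^ (i : ℕ)) →
  Wr M f → WFull M L

end Pool.Agent.N783.CF
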