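import Pool.Agent.N783.CF.CntS
import Pool.Agent.N783.CF.Final

/-!
# Wreath products: the fields (project WR, helper783)
-/

set_option autoImplicit false
set_option linter.all false

open Polynomial NumberField
open scoped Classical

namespace Pool.Agent.N783.CF

open Pool.Agent.N783.PF (Bd Ht dsc fF SqF IsGen Fam GoodS GoodF LBad Cg sp rd)

/-- The fields over `M`, as extensions of `K`. -/
theorem wrOne (hFRB : S_FRB) (hWW : S_WW) (hWF : S_WF) (hAA : S_AA)
    (g : ℕ) (K : Type) [Field K] [NumberField K] (M : IntermediateField K (AlgebraicClosure K))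
    [NumberField M] (hg : 1 ≤ g) (e : AlgebraicClosure M ≃ₐ[M] AlgebraicClosure K) :
    ∃ W₀ : ℕ, ∀ X : ℝ, ∀ L ∈ FldsS M g W₀ X,
      (L.map e.toAlgHom).restrictScalars K ∈ Fields K (Module.finrank K M * (2 * g + 1)) X ∧
      WFull M ((L.map e.toAlgHom).restrictScalars K) := by
  obtain ⟨W₀, hW⟩ := hFRB g K M hg
  refine ⟨W₀, fun X L hL => ?_⟩
  obtain ⟨⟨h1, h2, h3⟩, hN, f, θ, hG, hi, hs, ht, hu, hts⟩ := hL
  have hfull : Sym M L := full g M L f θ hg hG hi hs ht hu
  obtain ⟨hcard, hcyc⟩ := hW f hG.mon hG.deg hts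
  have hWr : Wr M f := hWW g K M f hg hcard hcyc (hAA g K M L f θ hG hi hfull)
  have eL : L ≃+* (L.map e.toAlgHom).restrictScalars K :=
    { toFun := fun x => ⟨e x.1, x.1, x.2, rfl⟩
      invFun := fun y => ⟨e.symm y.1, by
        obtain ⟨x, hx, hxy⟩ := y.2
        have : e.symm y.1 = x := by
          rw [← hxy]
          exact e.symm_apply_apply x
        rw [this]
        exact hx⟩
      left_inv := fun x => Subtype.ext (e.symm_apply_apply x.1)
      right_inv := fun y => Subtype.ext (e.apply_symm_apply y.1)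
      map_mul' := fun x y => Subtype.ext (map_mul e x.1 y.1)
      map_add' := fun x y => Subtype.ext (map_add e x.1 y.1) }
  have h4 : NumberField ((L.map e.toAlgHom).restrictScalars K) := NumberField.of_ringEquiv _ _ eL
  have hML : M ≤ (L.map e.toAlgHom).restrictScalars K := by
    intro x hx
    exact (L.map e.toAlgHom).algebraMap_mem ⟨x, hx⟩
  refine ⟨⟨?_, h4, ?_⟩, ?_⟩
  · have e1 : Module.finrank M (L.map e.toAlgHom) = 2 * g + 1 := by
      rw [← h1]
      exact (IntermediateField.intermediateFieldMap e L).toLinearEquiv.finrank_eq.symm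
    have e2 : Module.finrank K ((L.map e.toAlgHom).restrictScalars K) =
        Module.finrank K (L.map e.toAlgHom) := rfl
    rw [e2, ← e1, Module.finrank_mul_finrank]
  · rw [← NumberField.discr_eq_discr_of_ringEquiv L eL]
    exact h3
  · refine hWF g K M ((L.map e.toAlgHom).restrictScalars K) hML f ⟨e θ.1, θ.1, θ.2, rfl⟩
      hG.mon hG.deg hi ?_ ?_ hWr
    · show (f.map ((M.val : M →+* AlgebraicClosure K).comp (algebraMap (𝓞 M) M))).eval (e θ.1) = 0
      have hr := hG.root
      have hr2 : (fF f).eval₂ (algebraMap M (AlgebraicClosure M)) θ.1 = 0 := by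
        have := congrArg (algebraMap L (AlgebraicClosure M)) hr
        rw [map_zero, aeval_def, hom_eval₂] at this
        exact this
      have hr3 := congrArg e hr2
      rw [map_zero] at hr3
      have hr4 : (fF f).eval₂ ((e : AlgebraicClosure M →+* AlgebraicClosure K).comp
          (algebraMap M (AlgebraicClosure M))) (e θ.1) = 0 := by
        rw [← hr3]
        exact (hom_eval₂ (fF f) (algebraMap M (AlgebraicClosure M))
          (e : AlgebraicClosure M →+* AlgebraicClosure K) θ.1).symm
      have hc : (e : AlgebraicClosure M →+* AlgebraicClosure K).comp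
          (algebraMap M (AlgebraicClosure M)) = (M.val : M →+* AlgebraicClosure K) := by
        ext m
        exact e.commutes m
      rw [hc] at hr4
      rw [← Polynomial.map_map, eval_map]
      exact hr4
    · rintro ⟨x, y, hy, rfl⟩
      obtain ⟨c, hc⟩ := hG.gen ⟨y, hy⟩
      refine ⟨c, ?_⟩
      have hc2 := congrArg (fun t : L => e t.1) hc
      simp only at hc2
      refine hc2.trans ?_
      have h5 : ((∑ i, algebraMap M L (c i) * θ ^ (i : ℕ) : L) : AlgebraicClosure M) =
          ∑ i, algebraMap M (AlgebraicClosure M) (c i) * θ.1 ^ (i : ℕ) := by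
        have := map_sum (algebraMap L (AlgebraicClosure M))
          (fun i : Fin (2 * g + 1) => algebraMap M L (c i) * θ ^ (i : ℕ)) Finset.univ
        refine this.trans ?_
        refine Finset.sum_congr rfl fun i _ => ?_
        rw [map_mul, map_pow]
        rfl
      rw [h5, map_sum]
      refine Finset.sum_congr rfl fun i _ => ?_
      rw [map_mul, map_pow, e.commutes]
      rfl

/-- Many fields over `M` whose Galois group over `K` is the full wreath product. -/
theorem wrMany (hFRB : S_FRB) (hWW : S_WW) (hWF : S_WF) (hAA : S_AA) (hC : S_CNTS)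
    (g : ℕ) (K : Type) [Field K] [NumberField K] (M : IntermediateField K (AlgebraicClosure K))
    [NumberField M] (hg : 1 ≤ g) :
    ∃ c : ℝ, 0 < c ∧ ∃ X₀ : ℝ, ∀ X : ℝ, X₀ ≤ X →
      (Fields K (Module.finrank K M * (2 * g + 1)) X).Finite ∧
      ∃ T : Set (IntermediateField K (AlgebraicClosure K)),
        T ⊆ Fields K (Module.finrank K M * (2 * g + 1)) X ∧ (∀ L ∈ T, WFull M L) ∧
        c * X ^ ((1 : ℝ) / 2 + 1 / ((2 * g + 1 : ℕ) : ℝ)) ≤ (T.ncard : ℝ) := by
  have : Algebra.IsAlgebraic M (AlgebraicClosure K) := Algebra.IsAlgebraic.tower_top (K := K) M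
  have : IsAlgClosure M (AlgebraicClosure K) := ⟨inferInstance, inferInstance⟩
  obtain ⟨e⟩ : Nonempty (AlgebraicClosure M ≃ₐ[M] AlgebraicClosure K) :=
    ⟨IsAlgClosure.equiv M (AlgebraicClosure M) (AlgebraicClosure K)⟩
  have hinj : Function.Injective (fun L : IntermediateField M (AlgebraicClosure M) =>
      (L.map e.toAlgHom).restrictScalars K) := fun L L' h =>
    IntermediateField.map_injective _ (IntermediateField.restrictScalars_injective K h)
  obtain ⟨W₀, hW⟩ := wrOne hFRB hWW hWF hAA g K M hg e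
  obtain ⟨c, hc, X₀, h⟩ := hC g W₀ M hg
  have hpos : 0 < Module.finrank K M := Module.finrank_pos
  refine ⟨c, hc, max X₀ 1, fun X hX => ?_⟩
  have hX1 : 1 ≤ X := (le_max_right _ _).trans hX
  obtain ⟨hfin, hle⟩ := h X ((le_max_left _ _).trans hX)
  refine ⟨finf K _ X (by nlinarith) hX1, (fun L : IntermediateField M (AlgebraicClosure M) =>
      (L.map e.toAlgHom).restrictScalars K) '' FldsS M g W₀ X, ?_, ?_, ?_⟩
  · rintro _ ⟨L, hL, rfl⟩
    exact (hW X L hL).1
  · rintro _ ⟨L, hL, rfl⟩
    exact (hW X L hL).2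
  · rw [Set.ncard_image_of_injective _ hinj]
    exact hle

end Pool.Agent.N783.CF
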