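import Pool.Agent.N783.CF.WR

/-!
# Wreath products: permutation groups (project WR, helper783)
-/

set_option autoImplicit false
set_option linter.all false

open Polynomial NumberField
open scoped Classical

namespace Pool.Agent.N783.CF

/-- The Galois group of `K` acts on the set of embeddings of `L`, numbered by `ι`, as the permutation
group `G`. -/
def HasGroup {K : Type} [Field K] (L : IntermediateField K (AlgebraicClosure K)) {ι : Type}
    (G : Subgroup (Equiv.Perm ι)) : Prop :=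
  ∃ e : (L →ₐ[K] AlgebraicClosure K) ≃ ι, ∀ τ : Equiv.Perm ι, τ ∈ G ↔
    ∃ σ : AlgebraicClosure K ≃ₐ[K] AlgebraicClosure K, ∀ φ : L →ₐ[K] AlgebraicClosure K,
      e (σ.toAlgHom.comp φ) = τ (e φ)

/-- The wreath product of the symmetric group of degree `n` with the permutation group `H`. -/
def Wreath {m : ℕ} (n : ℕ) (H : Subgroup (Equiv.Perm (Fin m))) :
    Subgroup (Equiv.Perm (Fin m × Fin n)) where
  carrier := {τ | ∃ h ∈ H, ∀ x, (τ x).1 = h x.1}
  mul_mem' := by
    rintro a b ⟨h, hh, h1⟩ ⟨k, hk, h2⟩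
    exact ⟨h * k, H.mul_mem hh hk, fun x => by
      rw [Equiv.Perm.mul_apply, Equiv.Perm.mul_apply, h1, h2]⟩
  one_mem' := ⟨1, H.one_mem, fun x => rfl⟩
  inv_mem' := by
    rintro a ⟨h, hh, h1⟩
    refine ⟨h⁻¹, H.inv_mem hh, fun x => ?_⟩
    have e1 : a (a⁻¹ x) = x := Equiv.apply_symm_apply a x
    have e2 : h⁻¹ (h (a⁻¹ x).1) = (a⁻¹ x).1 := Equiv.symm_apply_apply h _
    have e3 := h1 (a⁻¹ x)
    rw [e1] at e3
    rw [e3, e2]

/-- The action of an automorphism on the embeddings. -/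
noncomputable def act {K : Type} [Field K] (M : IntermediateField K (AlgebraicClosure K))
    (σ : AlgebraicClosure K ≃ₐ[K] AlgebraicClosure K) : Equiv.Perm (M →ₐ[K] AlgebraicClosure K) where
  toFun φ := σ.toAlgHom.comp φ
  invFun φ := σ.symm.toAlgHom.comp φ
  left_inv φ := by
    ext x
    exact σ.symm_apply_apply _
  right_inv φ := by
    ext x
    exact σ.apply_symm_apply _

theorem exists_act {K : Type} [Field K] (M : IntermediateField K (AlgebraicClosure K))
    (φ φ' : M →ₐ[K] AlgebraicClosure K) :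
    ∃ σ : AlgebraicClosure K ≃ₐ[K] AlgebraicClosure K, σ.toAlgHom.comp φ = φ' := by
  have key : ∀ ψ : M →ₐ[K] AlgebraicClosure K,
      ∃ σ : AlgebraicClosure K ≃ₐ[K] AlgebraicClosure K, σ.toAlgHom.comp M.val = ψ := by
    intro ψ
    have hn : Normal K (AlgebraicClosure K) := inferInstance
    let s := ψ.liftNormal (AlgebraicClosure K)
    have hb : Function.Bijective s := AlgHom.normal_bijective K (AlgebraicClosure K) _ s
    refine ⟨AlgEquiv.ofBijective s hb, ?_⟩
    ext x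
    exact AlgHom.liftNormal_commutes ψ (AlgebraicClosure K) x
  obtain ⟨σ, hσ⟩ := key φ
  obtain ⟨σ', hσ'⟩ := key φ'
  refine ⟨σ.symm.trans σ', ?_⟩
  rw [← hσ, ← hσ']
  ext x
  exact congrArg σ' (σ.symm_apply_apply _)

/-- The full wreath product as a permutation group. -/
theorem hasGroup_wreath {K : Type} [Field K] [NumberField K]
    (M L : IntermediateField K (AlgebraicClosure K)) [NumberField M] [NumberField L] {m n : ℕ}
    (H : Subgroup (Equiv.Perm (Fin m))) (hM : HasGroup M H)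
    (hd : Module.finrank K L = Module.finrank K M * n) (h : WFull M L) :
    HasGroup L (Wreath n H) := by
  obtain ⟨hML, hW⟩ := h
  obtain ⟨eM, heM⟩ := hM
  have : FiniteDimensional K M := Module.Finite.of_restrictScalars_finite ℚ K M
  have : FiniteDimensional K L := Module.Finite.of_restrictScalars_finite ℚ K L
  have hcM : Fintype.card (M →ₐ[K] AlgebraicClosure K) = Module.finrank K M := AlgHom.card K M _
  have hcL : Fintype.card (L →ₐ[K] AlgebraicClosure K) = Module.finrank K L := AlgHom.card K L _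
  let r : (L →ₐ[K] AlgebraicClosure K) → (M →ₐ[K] AlgebraicClosure K) :=
    fun ψ => ψ.comp (IntermediateField.inclusion hML)
  have hr : ∀ (σ : AlgebraicClosure K ≃ₐ[K] AlgebraicClosure K) (ψ : L →ₐ[K] AlgebraicClosure K),
      r (σ.toAlgHom.comp ψ) = σ.toAlgHom.comp (r ψ) := fun σ ψ => rfl
  have hcard : ∀ φ φ' : M →ₐ[K] AlgebraicClosure K,
      Fintype.card {ψ // r ψ = φ} = Fintype.card {ψ // r ψ = φ'} := by
    have hle : ∀ φ φ' : M →ₐ[K] AlgebraicClosure K,
        Fintype.card {ψ // r ψ = φ} ≤ Fintype.card {ψ // r ψ = φ'} := by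
      intro φ φ'
      obtain ⟨σ, hσ⟩ := exists_act M φ φ'
      refine Fintype.card_le_of_injective
        (fun ψ => ⟨σ.toAlgHom.comp ψ.1, by rw [hr, ψ.2, hσ]⟩) ?_
      intro a b hab
      exact Subtype.ext ((act L σ).injective (congrArg Subtype.val hab))
    exact fun φ φ' => le_antisymm (hle _ _) (hle _ _)
  have hpos : 0 < Module.finrank K M := Module.finrank_pos
  have hfib : ∀ φ : M →ₐ[K] AlgebraicClosure K, Fintype.card {ψ // r ψ = φ} = n := by
    intro φ
    have h1 : Fintype.card (L →ₐ[K] AlgebraicClosure K) =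
        ∑ φ' : M →ₐ[K] AlgebraicClosure K, Fintype.card {ψ // r ψ = φ'} := by
      rw [← Fintype.card_sigma]
      exact (Fintype.card_congr (Equiv.sigmaFiberEquiv r)).symm
    have h2 : ∑ φ' : M →ₐ[K] AlgebraicClosure K, Fintype.card {ψ // r ψ = φ'} =
        Module.finrank K M * Fintype.card {ψ // r ψ = φ} := by
      rw [Finset.sum_congr rfl (fun φ' _ => hcard φ' φ), Finset.sum_const, Finset.card_univ, hcM,
        smul_eq_mul]
    rw [hcL, hd, h2] at h1
    exact (Nat.eq_of_mul_eq_mul_left hpos h1).symm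
  let e0 : (Σ φ : M →ₐ[K] AlgebraicClosure K, {ψ // r ψ = φ}) ≃ (L →ₐ[K] AlgebraicClosure K) :=
    Equiv.sigmaFiberEquiv r
  let e1 : (Σ φ : M →ₐ[K] AlgebraicClosure K, {ψ // r ψ = φ}) ≃
      (Σ _ : M →ₐ[K] AlgebraicClosure K, Fin n) :=
    Equiv.sigmaCongrRight fun φ => Fintype.equivFinOfCardEq (hfib φ)
  let e2 : (Σ _ : M →ₐ[K] AlgebraicClosure K, Fin n) ≃ (M →ₐ[K] AlgebraicClosure K) × Fin n :=
    Equiv.sigmaEquivProd _ _
  let e3 : (M →ₐ[K] AlgebraicClosure K) × Fin n ≃ Fin m × Fin n :=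
    Equiv.prodCongr eM (Equiv.refl _)
  let eL : (L →ₐ[K] AlgebraicClosure K) ≃ Fin m × Fin n := ((e0.symm.trans e1).trans e2).trans e3
  have heL : ∀ ψ : L →ₐ[K] AlgebraicClosure K, (eL ψ).1 = eM (r ψ) := fun ψ => rfl
  refine ⟨eL, fun τ => ⟨?_, ?_⟩⟩
  · rintro ⟨h, hh, hτ⟩
    obtain ⟨ρ, hρ⟩ := (heM h).1 hh
    obtain ⟨σ, hσ⟩ := hW ((eL.trans τ).trans eL.symm) ⟨ρ, fun ψ => by
      apply eM.injective
      have h1 : eM (r (eL.symm (τ (eL ψ)))) = (τ (eL ψ)).1 := by
        rw [← heL, Equiv.apply_symm_apply]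
      have h2 : (τ (eL ψ)).1 = h (eM (r ψ)) := by rw [hτ, heL]
      exact (h1.trans h2).trans (hρ (r ψ)).symm⟩
    refine ⟨σ, fun ψ => ?_⟩
    rw [← hσ ψ]
    exact eL.apply_symm_apply _
  · rintro ⟨σ, hσ⟩
    refine ⟨(eM.symm.trans (act M σ)).trans eM, ?_, ?_⟩
    · refine (heM _).2 ⟨σ, fun φ => ?_⟩
      show eM (σ.toAlgHom.comp φ) = eM (act M σ (eM.symm (eM φ)))
      rw [Equiv.symm_apply_apply]
      rfl
    · intro x
      obtain ⟨ψ, rfl⟩ := eL.surjective x
      rw [← hσ ψ, heL, hr, heL]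
      show eM (σ.toAlgHom.comp (r ψ)) = eM (act M σ (eM.symm (eM (r ψ))))
      rw [Equiv.symm_apply_apply]
      rfl

end Pool.Agent.N783.CF
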