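import Pool.Agent.N783.CF.WRF
import Pool.Agent.N783.CF.WRG
import Pool.Agent.N441.WR.FF
import Pool.Agent.N574.WR.AA
import Pool.Agent.N928.WR.GRP
import Pool.Agent.N288.WR.ALP
import Pool.Agent.N58.WR.WW
import Pool.Agent.N914.WR.WF
import Pool.Agent.N545.WR.SPL
import Pool.Agent.N710.WR.FR1
import Pool.Agent.N540.WR.FRB
import Pool.Agent.N749.WR.FBR

/-!
# Assembly of project WR (helper783)
-/

set_option autoImplicit false

namespace Pool.Agent.N783.CF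

theorem spl : S_SPL := Pool.Agent.N545.WR.t_SPL

theorem fr1 : S_FR1 := Pool.Agent.N710.WR.t_FR1

theorem fbr : S_FBR := Pool.Agent.N749.WR.t_FBR Pool.Agent.N441.WR.t_FF

theorem frb : S_FRB := Pool.Agent.N540.WR.t_FRB fr1 Pool.Agent.N288.WR.t_ALP fbr

theorem cnts : S_CNTS :=
  t_CNTS (t_CN1S (t_MANYS few (t_FAMQS Pool.Agent.N490.PF.pts Pool.Agent.N352.PF.famT
    Pool.Agent.N783.PF.bad (t_EXS2 spl) Pool.Agent.N783.PF.sqf Pool.Agent.N667.PF.irr))
    (Pool.Agent.N914.CF.t_FIB Pool.Agent.N490.PF.pts Pool.Agent.N783.PF.int)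
    Pool.Agent.N602.CF.t_UNI Pool.Agent.N793.CF.t_DB Pool.Agent.N526.CF.t_ADJ
    Pool.Agent.N692.CF.t_NUN finf Pool.Agent.N490.PF.pts) finf

/-- Many fields over `M` whose Galois group over `K` is the full wreath product. -/
theorem wreathFields (g : ℕ) (K : Type) [Field K] [NumberField K]
    (M : IntermediateField K (AlgebraicClosure K)) [NumberField M] (hg : 1 ≤ g) :
    ∃ c : ℝ, 0 < c ∧ ∃ X₀ : ℝ, ∀ X : ℝ, X₀ ≤ X →
      (Fields K (Module.finrank K M * (2 * g + 1)) X).Finite ∧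
      ∃ T : Set (IntermediateField K (AlgebraicClosure K)),
        T ⊆ Fields K (Module.finrank K M * (2 * g + 1)) X ∧ (∀ L ∈ T, WFull M L) ∧
        c * X ^ ((1 : ℝ) / 2 + 1 / ((2 * g + 1 : ℕ) : ℝ)) ≤ (T.ncard : ℝ) :=
  wrMany frb (Pool.Agent.N58.WR.t_WW Pool.Agent.N928.WR.t_GRP) Pool.Agent.N914.WR.t_WF
    Pool.Agent.N574.WR.t_AA cnts g K M hg

end Pool.Agent.N783.CF
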